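import Mathlib
import Pool.Agent.U307.RAD.Stm2

/-!
Project RAD, package KU (helper103): the constant `13 n / 2`.
-/

set_option autoImplicit false

namespace Pool.Agent.U103.RAD.KU

open MeasureTheory Set Pool.Agent.U307.RAD

/-- the kernel divided by `r ^ 2` -/
noncomputable def ww (n l : ℕ) (r : ℝ) : ℝ :=
  2 * ∑ i ∈ Finset.range n, Cc n l i * r ^ (l - 2 + 2 * i)

lemma uu_eq {n l : ℕ} (hl : 2 ≤ l) (r : ℝ) : uu n l r = r ^ 2 * ww n l r := by
  unfold uu ww
  simp only [Finset.mul_sum]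
  refine Finset.sum_congr rfl fun i _ => ?_
  rw [show l + 2 * i = 2 + (l - 2 + 2 * i) by omega, pow_add]
  ring

lemma continuous_ww (n l : ℕ) : Continuous (ww n l) := by
  unfold ww
  fun_prop

lemma pointwise {y a b lam r : ℝ} (ha : 0 < a) (hb : 0 < b) (hl : 0 < lam)
    (hr0 : 0 ≤ r) :
    r * y ≤ r ^ 3 * y + (lam / 2 * a * (r ^ 3 * y ^ 2 * (1 - r ^ 2) ^ 2) +
      lam / 2 * b * (r * y ^ 2 * (1 - r ^ 2) ^ 2)) + 1 / (2 * lam) * (r / (a * r ^ 2 + b)) := by
  set s := 1 - r ^ 2 with hs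
  have hD : 0 < a * r ^ 2 + b := by positivity
  set D := a * r ^ 2 + b with hDdef
  have h1 : s * y ≤ lam * D * s ^ 2 * y ^ 2 / 2 + 1 / (2 * lam * D) := by
    have h2 : 0 ≤ (lam * D * (s * y) - 1) ^ 2 / (2 * lam * D) := by positivity
    have h3 : (lam * D * (s * y) - 1) ^ 2 / (2 * lam * D) =
        lam * D * s ^ 2 * y ^ 2 / 2 + 1 / (2 * lam * D) - s * y := by
      field_simp
      ring
    linarith
  have h4 := mul_le_mul_of_nonneg_left h1 hr0
  have h5 : r * (lam * D * s ^ 2 * y ^ 2 / 2 + 1 / (2 * lam * D)) =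
      (lam / 2 * a * (r ^ 3 * y ^ 2 * s ^ 2) + lam / 2 * b * (r * y ^ 2 * s ^ 2)) +
        1 / (2 * lam) * (r / D) := by
    have h6 : r * (lam * D * s ^ 2 * y ^ 2 / 2) =
        lam / 2 * a * (r ^ 3 * y ^ 2 * s ^ 2) + lam / 2 * b * (r * y ^ 2 * s ^ 2) := by
      rw [hDdef]
      ring
    rw [mul_add, h6]
    congr 1
    field_simp
  rw [h5] at h4
  have h7 : r * y = r ^ 3 * y + r * (s * y) := by
    rw [hs]
    ring
  linarith

lemma int_log {a b : ℝ} (ha : 0 < a) (hb : 0 < b) :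
    ∫ r in (0:ℝ)..1, r / (a * r ^ 2 + b) = 1 / (2 * a) * Real.log (1 + a / b) := by
  have hpos : ∀ r : ℝ, 0 < a * r ^ 2 + b := fun r => by positivity
  have hd : ∀ r ∈ uIcc (0:ℝ) 1, HasDerivAt (fun r : ℝ => 1 / (2 * a) * Real.log (a * r ^ 2 + b))
      (r / (a * r ^ 2 + b)) r := by
    intro r _
    have h1 : HasDerivAt (fun r : ℝ => a * r ^ 2 + b) (a * (2 * r)) r := by
      have h2 : HasDerivAt (fun r : ℝ => r ^ 2) (2 * r) r := by
        simpa using hasDerivAt_pow 2 r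
      exact (h2.const_mul a).add_const b
    have h2 := (h1.log (hpos r).ne').const_mul (1 / (2 * a))
    have e : 1 / (2 * a) * (a * (2 * r) / (a * r ^ 2 + b)) = r / (a * r ^ 2 + b) := by
      have := (hpos r).ne'
      field_simp
    rw [e] at h2
    exact h2
  have hc : Continuous (fun r : ℝ => r / (a * r ^ 2 + b)) :=
    continuous_id.div (by fun_prop) fun r => (hpos r).ne'
  rw [intervalIntegral.integral_eq_sub_of_hasDerivAt hd (hc.intervalIntegrable _ _)]
  have h3 : (1 : ℝ) + a / b = (a * 1 ^ 2 + b) / (a * 0 ^ 2 + b) := by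
    field_simp
    ring
  rw [h3, Real.log_div (hpos 1).ne' (hpos 0).ne']
  ring

theorem t_KU : S_L1 → S_EU → S_KU := by
  intro hL1 hEU n l hn hl hlog
  have hn1 : (1 : ℝ) ≤ n := by exact_mod_cast hn
  have hl2 : (2 : ℝ) ≤ l := by exact_mod_cast hl
  have hn0 : (0 : ℝ) < n := by linarith
  have hl0 : (0 : ℝ) < l := by linarith
  have hll : (0 : ℝ) < (l : ℝ) ^ 2 - 1 := by nlinarith
  obtain ⟨h1, h2⟩ := hEU n l hn
  have hE1 := h1 (by omega)
  have hE2 := h2 hl
  have hKI := hL1 n l hn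
  set F1 : ℝ := 4 * (n : ℝ) ^ 2 * (n + l) / (l * (2 * n + l)) with hF1
  set F2 : ℝ := 4 * (n : ℝ) ^ 2 * (n + l) ^ 2 / (l * ((l : ℝ) ^ 2 - 1)) with hF2
  have hF1p : 0 < F1 := by positivity
  have hF2p : 0 < F2 := by positivity
  have hw := continuous_ww n l
  -- the integrals in terms of `ww`
  have i1 : ∫ r in (0 : ℝ)..1, |uu n l r| / r = ∫ r in (0 : ℝ)..1, r * |ww n l r| := by
    refine intervalIntegral.integral_congr fun r hr => ?_
    rw [uIcc_of_le zero_le_one] at hr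
    rw [uu_eq hl, abs_mul, abs_of_nonneg (by positivity : (0 : ℝ) ≤ r ^ 2)]
    rcases hr.1.eq_or_lt with h0 | h0
    · rw [← h0]
      simp
    · field_simp
  have i2 : ∫ r in (0 : ℝ)..1, |qq n l r| = ∫ r in (0 : ℝ)..1, r ^ 3 * |ww n l r| := by
    refine intervalIntegral.integral_congr fun r hr => ?_
    rw [uIcc_of_le zero_le_one] at hr
    unfold qq
    rw [uu_eq hl, abs_mul, abs_mul, abs_of_nonneg (by positivity : (0 : ℝ) ≤ r ^ 2),
      abs_of_nonneg hr.1]
    ring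
  have i3 : ∫ r in (0 : ℝ)..1, uu n l r ^ 2 * (1 - r ^ 2) ^ 2 / r =
      ∫ r in (0 : ℝ)..1, r ^ 3 * |ww n l r| ^ 2 * (1 - r ^ 2) ^ 2 := by
    refine intervalIntegral.integral_congr fun r hr => ?_
    rw [uu_eq hl, sq_abs]
    rcases eq_or_ne r 0 with h0 | h0
    · rw [h0]
      simp
    · field_simp
  have i4 : ∫ r in (0 : ℝ)..1, uu n l r ^ 2 * (1 - r ^ 2) ^ 2 / r ^ 3 =
      ∫ r in (0 : ℝ)..1, r * |ww n l r| ^ 2 * (1 - r ^ 2) ^ 2 := by
    refine intervalIntegral.integral_congr fun r hr => ?_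
    rw [uu_eq hl, sq_abs]
    rcases eq_or_ne r 0 with h0 | h0
    · rw [h0]
      simp
    · field_simp
  rw [i3] at hE1
  rw [i4] at hE2
  have ha : 0 < 1 / F1 := by positivity
  have hb : 0 < 1 / F2 := by positivity
  have hlam : (0 : ℝ) < 2 * n := by positivity
  have hpos : ∀ r : ℝ, 0 < 1 / F1 * r ^ 2 + 1 / F2 := fun r => by positivity
  have c0 : IntervalIntegrable (fun r => r * |ww n l r|) volume 0 1 :=
    (by fun_prop : Continuous fun r => r * |ww n l r|).intervalIntegrable _ _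
  have c1 : IntervalIntegrable (fun r => r ^ 3 * |ww n l r|) volume 0 1 :=
    (by fun_prop : Continuous fun r => r ^ 3 * |ww n l r|).intervalIntegrable _ _
  have c2 : IntervalIntegrable (fun r => r ^ 3 * |ww n l r| ^ 2 * (1 - r ^ 2) ^ 2) volume 0 1 :=
    (by fun_prop : Continuous fun r => r ^ 3 * |ww n l r| ^ 2 * (1 - r ^ 2) ^ 2).intervalIntegrable _ _
  have c3 : IntervalIntegrable (fun r => r * |ww n l r| ^ 2 * (1 - r ^ 2) ^ 2) volume 0 1 :=
    (by fun_prop : Continuous fun r => r * |ww n l r| ^ 2 * (1 - r ^ 2) ^ 2).intervalIntegrable _ _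
  have c4 : IntervalIntegrable (fun r : ℝ => r / (1 / F1 * r ^ 2 + 1 / F2)) volume 0 1 :=
    (continuous_id.div (by fun_prop) fun r => (hpos r).ne').intervalIntegrable _ _
  have hmain : ∫ r in (0 : ℝ)..1, r * |ww n l r| ≤
      (∫ r in (0 : ℝ)..1, r ^ 3 * |ww n l r|) +
      ((2 * n : ℝ) / 2 * (1 / F1) * (∫ r in (0 : ℝ)..1, r ^ 3 * |ww n l r| ^ 2 * (1 - r ^ 2) ^ 2) +
        (2 * n : ℝ) / 2 * (1 / F2) * ∫ r in (0 : ℝ)..1, r * |ww n l r| ^ 2 * (1 - r ^ 2) ^ 2) +
      1 / (2 * (2 * n : ℝ)) * ∫ r in (0 : ℝ)..1, r / (1 / F1 * r ^ 2 + 1 / F2) := by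
    rw [← intervalIntegral.integral_const_mul, ← intervalIntegral.integral_const_mul,
      ← intervalIntegral.integral_const_mul, ← intervalIntegral.integral_add
      (c2.const_mul _) (c3.const_mul _), ← intervalIntegral.integral_add c1
      ((c2.const_mul _).add (c3.const_mul _)), ← intervalIntegral.integral_add
      (c1.add ((c2.const_mul _).add (c3.const_mul _))) (c4.const_mul _)]
    refine intervalIntegral.integral_mono_on zero_le_one c0
      ((c1.add ((c2.const_mul _).add (c3.const_mul _))).add (c4.const_mul _)) fun r hr => ?_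
    exact pointwise ha hb hlam hr.1
  rw [hE1, hE2, int_log ha hb] at hmain
  -- the logarithm
  have hL : Real.log (1 + (1 / F1) / (1 / F2)) ≤ 2 + 2 * Real.log n := by
    have e1 : (1 / F1) / (1 / F2) = ((n : ℝ) + l) * (2 * n + l) / ((l : ℝ) ^ 2 - 1) := by
      rw [hF1, hF2]
      field_simp
    have e2 : 1 + ((n : ℝ) + l) * (2 * n + l) / ((l : ℝ) ^ 2 - 1) ≤ 5 * (n : ℝ) ^ 2 := by
      have e3 : ((n : ℝ) + l) * (2 * n + l) / ((l : ℝ) ^ 2 - 1) ≤ 5 * (n : ℝ) ^ 2 - 1 := by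
        rw [div_le_iff₀ hll]
        obtain ⟨u, hu⟩ : ∃ u : ℝ, (n : ℝ) = 1 + u := ⟨n - 1, by ring⟩
        obtain ⟨w, hw'⟩ : ∃ w : ℝ, (l : ℝ) = 2 + w := ⟨l - 2, by ring⟩
        have hu0 : 0 ≤ u := by linarith
        have hw0 : 0 ≤ w := by linarith
        rw [hu, hw']
        have : 0 ≤ 9 * w + 3 * w ^ 2 + 20 * u + 37 * (u * w) + 10 * (u * w ^ 2) + 13 * u ^ 2 +
            20 * (u ^ 2 * w) + 5 * (u ^ 2 * w ^ 2) := by positivity
        nlinarith
      linarith
    have e3 : Real.log 5 ≤ 2 := by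
      rw [Real.log_le_iff_le_exp (by norm_num)]
      have h3 : (2.7 : ℝ) < Real.exp 1 := by
        have := Real.exp_one_gt_d9
        linarith
      have h4 : Real.exp 2 = Real.exp 1 * Real.exp 1 := by
        rw [← Real.exp_add]
        norm_num
      rw [h4]
      nlinarith
    rw [e1]
    have e4 := Real.log_le_log (by positivity) e2
    rw [Real.log_mul (by norm_num) (by positivity), Real.log_pow] at e4
    push_cast at e4
    linarith
  have hF1b : F1 ≤ 4 * (n : ℝ) ^ 2 / l := by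
    rw [hF1, div_le_div_iff₀ (by positivity) hl0]
    have : (n : ℝ) + l ≤ 2 * n + l := by linarith
    have h3 : 0 ≤ 4 * (n : ℝ) ^ 2 * l := by positivity
    nlinarith [mul_le_mul_of_nonneg_left this h3]
  set x : ℝ := Real.log n with hx
  have hx0 : 0 ≤ x := Real.log_natCast_nonneg n
  set Lg : ℝ := Real.log (1 + (1 / F1) / (1 / F2)) with hLg
  have hLg0 : 0 ≤ Lg := by
    refine Real.log_nonneg ?_
    have : 0 < (1 / F1) / (1 / F2) := by positivity
    linarith
  have hJ : 1 / (2 * (2 * n : ℝ)) * (1 / (2 * (1 / F1)) * Lg) ≤ n * ((1 + x) / l) := by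
    have e1 : 1 / (2 * (2 * n : ℝ)) * (1 / (2 * (1 / F1)) * Lg) = F1 * Lg / (8 * n) := by
      field_simp
      ring
    rw [e1, div_le_iff₀ (by positivity)]
    calc F1 * Lg ≤ (4 * (n : ℝ) ^ 2 / l) * (2 + 2 * x) := mul_le_mul hF1b hL hLg0 (by positivity)
      _ = n * ((1 + x) / l) * (8 * n) := by
          field_simp
          ring
  have hsum : (2 * n : ℝ) / 2 * (1 / F1) * F1 + (2 * n : ℝ) / 2 * (1 / F2) * F2 = 2 * n := by
    field_simp
    ring
  rw [hsum] at hmain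
  unfold KI at hKI
  rw [i2] at hKI
  unfold KU
  rw [i1]
  have hfin : 4 * (n : ℝ) ^ (3 / 4 : ℝ) + 2 * n + n * ((1 + x) / l) ≤ 13 / 2 * n := by
    -- the power
    have hq : (n : ℝ) ^ (3 / 4 : ℝ) * (1 + x / 4) ≤ n := by
      have e1 : (n : ℝ) ^ (1 / 4 : ℝ) = Real.exp (x / 4) := by
        rw [Real.rpow_def_of_pos hn0, ← hx]
        congr 1
        ring
      have e2 : 1 + x / 4 ≤ (n : ℝ) ^ (1 / 4 : ℝ) := by
        rw [e1]
        have := Real.add_one_le_exp (x / 4)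
        linarith
      calc (n : ℝ) ^ (3 / 4 : ℝ) * (1 + x / 4) ≤ (n : ℝ) ^ (3 / 4 : ℝ) * (n : ℝ) ^ (1 / 4 : ℝ) :=
            mul_le_mul_of_nonneg_left e2 (by positivity)
        _ = n := by
            rw [← Real.rpow_add hn0]
            norm_num
    set P : ℝ := (n : ℝ) ^ (3 / 4 : ℝ) with hP
    have hP0 : 0 < P := by positivity
    have hPb : 4 * P ≤ n * (16 / (4 + x)) := by
      rw [mul_div_assoc', le_div_iff₀ (by linarith)]
      nlinarith
    rcases le_total x 4 with h4 | h4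
    · have e1 : 16 / (4 + x) ≤ 4 - x / 2 := by
        rw [div_le_iff₀ (by linarith)]
        nlinarith
      have e2 : (1 + x) / l ≤ (1 + x) / 2 := by
        apply div_le_div_of_nonneg_left (by linarith) (by norm_num) hl2
      have e3 := mul_le_mul_of_nonneg_left e1 hn0.le
      have e4 := mul_le_mul_of_nonneg_left e2 hn0.le
      nlinarith
    · have e1 : 16 / (4 + x) ≤ 2 := by
        rw [div_le_iff₀ (by linarith)]
        linarith
      have e2 : (1 + x) / l ≤ 5 / 2 := by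
        rw [div_le_iff₀ hl0]
        linarith
      have e3 := mul_le_mul_of_nonneg_left e1 hn0.le
      have e4 := mul_le_mul_of_nonneg_left e2 hn0.le
      linarith
  linarith

end Pool.Agent.U103.RAD.KU
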